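import Pool.Agent.Helper88.AD.Stmts

/-! Packet EVAL: the evaluation of the model on the words `lr`. -/

namespace Pool.Agent.Helper98.AD

open Pool.Agent.Helper88.AD

theorem ac_single {d : ℕ} {K E : Type} [AddCommGroup E] [Module ℚ E]
    (act : K → Module.End ℚ E) (k₀ : K) (z : Fin d) (n : Fin d → K) (v : E) :
    ac act k₀ z (Finsupp.single n v) = Finsupp.single (Function.update n z k₀) (act (n z) v) := by
  unfold ac
  rw [Finsupp.lsum_single]
  simp

theorem hd_single {d : ℕ} {K E : Type} [AddCommGroup E] [Module ℚ E]
    (h : E →ₗ[ℚ] (K →₀ E)) (z : Fin d) (n : Fin d → K) (v : E) :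
    hd h z (Finsupp.single n v) = (h v).mapDomain (fun k => Function.update n z k) := by
  unfold hd
  rw [Finsupp.lsum_single]
  simp

theorem mu_single {N : ℕ} (m : Bx N) (w : List (Bx N)) (b : Fin N) :
    mu m (Finsupp.single (w, b) 1) = Finsupp.single (m :: w, b) 1 := by
  unfold mu
  simp

theorem hM_single {N : ℕ} (a : Fin N) :
    hM (Finsupp.single (([] : List (Bx N)), a) (1 : ℚ)) =
      ∑ b, Finsupp.single (([], (b, a)) : Lg N) (Finsupp.single (([] : List (Bx N)), b) (1 : ℚ)) := by
  unfold hM
  rw [Finsupp.linearCombination_single, one_smul]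
  rfl

/-- The tails. -/
theorem ac_prod {d N : ℕ} (k₀ : Lg N) (n : Fin d → Lg N) (m : Fin d → Bx N)
    (hn : ∀ i, n i = ([], m i)) (b : Fin N) (j : ℕ) (hj : j ≤ d) :
    ((List.ofFn fun i : Fin d => ac (actM (N := N)) k₀ i).drop (d - j)).prod
      (Finsupp.single n (Finsupp.single ([], b) 1)) =
    Finsupp.single (fun i : Fin d => if d - j ≤ (i : ℕ) then k₀ else n i)
      (Finsupp.single ((List.ofFn m).drop (d - j), b) 1) := by
  induction j with
  | zero =>
    rw [List.drop_of_length_le (by simp), List.drop_of_length_le (by simp)]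
    have : (fun i : Fin d => if d - 0 ≤ (i : ℕ) then k₀ else n i) = n := by
      funext i
      rw [if_neg]
      have := i.2
      omega
    rw [this]
    simp
  | succ j ih =>
    have ih := ih (by omega)
    have hlt : d - (j + 1) < d := by omega
    have he : d - (j + 1) + 1 = d - j := by omega
    rw [List.drop_eq_getElem_cons (i := d - (j + 1)) (by simpa using hlt),
      List.drop_eq_getElem_cons (l := List.ofFn m) (i := d - (j + 1)) (by simpa using hlt), he]
    rw [List.prod_cons, Module.End.mul_apply, ih]
    rw [List.getElem_ofFn, List.getElem_ofFn, ac_single]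
    have hneg : ¬ (d - j ≤ d - (j + 1)) := by omega
    simp only [hneg, if_false, hn]
    have h1 : actM (([], m ⟨d - (j + 1), by simpa using hlt⟩) : Lg N) =
        mu (m ⟨d - (j + 1), by simpa using hlt⟩) := rfl
    rw [h1, mu_single]
    congr 1
    funext i
    by_cases hi : i = ⟨d - (j + 1), hlt⟩
    · subst hi
      rw [Function.update_self, if_pos (le_refl _)]
    · rw [Function.update_of_ne hi]
      have hi' : (i : ℕ) ≠ d - (j + 1) := fun h => hi (Fin.ext h)
      by_cases h2 : d - j ≤ (i : ℕ)
      · rw [if_pos h2, if_pos (by omega)]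
      · rw [if_neg h2, if_neg (by omega)]

/-- The coefficient functional. -/
noncomputable def cf {d N : ℕ} (k₀ : Lg N) (p : List (Bx N) × Fin N) :
    St d (Lg N) (EE N) →ₗ[ℚ] ℚ :=
  (Finsupp.lapply p) ∘ₗ (Finsupp.lapply (fun _ : Fin d => k₀)) ∘ₗ
    (List.ofFn fun i : Fin d => ac (actM (N := N)) k₀ i).prod

theorem cf_single {d N : ℕ} (k₀ : Lg N) (m' : Fin d → Bx N) (b' : Fin N) (n : Fin d → Lg N)
    (m : Fin d → Bx N) (hn : ∀ i, n i = ([], m i)) (b : Fin N) :
    cf k₀ (List.ofFn m', b') (Finsupp.single n (Finsupp.single ([], b) 1)) =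
      if m = m' ∧ b = b' then 1 else 0 := by
  have h := ac_prod k₀ n m hn b d le_rfl
  rw [Nat.sub_self, List.drop_zero, List.drop_zero] at h
  unfold cf
  rw [LinearMap.comp_apply, LinearMap.comp_apply, h]
  have h2 : (fun i : Fin d => if 0 ≤ (i : ℕ) then k₀ else n i) = fun _ => k₀ := by
    funext i; simp
  rw [h2]
  simp only [Finsupp.lapply_apply, Finsupp.single_eq_same]
  rw [Finsupp.single_apply]
  simp only [Prod.mk.injEq, List.ofFn_inj]

/-- The heads. -/
theorem cf_hd {d : ℕ} (σ τ : Equiv.Perm (Fin d)) (k₀ : Lg (d + 1)) (j : ℕ) (hj : j ≤ d)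
    (n : Fin d → Lg (d + 1)) (m : Fin d → Bx (d + 1))
    (hn : ∀ i, j ≤ (σ.symm i : ℕ) → n i = ([], m i)) (b : Fin (d + 1)) :
    cf k₀ ((List.ofFn fun i : Fin d => ((τ.symm i).castSucc, (τ.symm i).succ)), 0)
      ((((List.ofFn fun k : Fin d => hd (hM (N := d + 1)) (σ k)).take j).prod)
        (Finsupp.single n (Finsupp.single ([], b) 1))) =
    if (∀ i, j ≤ (σ.symm i : ℕ) → m i = ((τ.symm i).castSucc, (τ.symm i).succ)) ∧
      (b : ℕ) = j ∧ ∀ k : Fin d, (k : ℕ) < j → τ.symm (σ k) = k then 1 else 0 := by
  induction j generalizing n m b with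
  | zero =>
    rw [List.take_zero, List.prod_nil, Module.End.one_apply,
      cf_single k₀ _ 0 n m (fun i => hn i (Nat.zero_le _))]
    refine if_congr ?_ rfl rfl
    constructor
    · rintro ⟨h1, h2⟩
      refine ⟨fun i _ => congrFun h1 i, by rw [h2]; rfl, fun k hk => absurd hk (Nat.not_lt_zero _)⟩
    · rintro ⟨h1, h2, -⟩
      exact ⟨funext fun i => h1 i (Nat.zero_le _), Fin.ext h2⟩
  | succ j ih =>
    have hlt : j < d := hj
    have hlen : j < (List.ofFn fun k : Fin d => hd (hM (N := d + 1)) (σ k)).length := by
      simpa using hlt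
    rw [List.prod_take_succ _ _ hlen, Module.End.mul_apply, List.getElem_ofFn, hd_single,
      hM_single, Finsupp.mapDomain_finsetSum, map_sum, map_sum]
    set jj : Fin d := ⟨j, hlt⟩ with hjj
    have key : ∀ c : Fin (d + 1),
        cf k₀ ((List.ofFn fun i : Fin d => ((τ.symm i).castSucc, (τ.symm i).succ)), 0)
          ((((List.ofFn fun k : Fin d => hd (hM (N := d + 1)) (σ k)).take j).prod)
            (Finsupp.mapDomain (fun k => Function.update n (σ jj) k)
              (Finsupp.single ([], (c, b)) (Finsupp.single (([] : List (Bx (d + 1))), c) (1 : ℚ))))) =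
        if (c : ℕ) = j ∧ ((∀ i, j + 1 ≤ (σ.symm i : ℕ) →
          m i = ((τ.symm i).castSucc, (τ.symm i).succ)) ∧
          (b : ℕ) = j + 1 ∧ ∀ k : Fin d, (k : ℕ) < j + 1 → τ.symm (σ k) = k) then 1 else 0 := by
      intro c
      rw [Finsupp.mapDomain_single]
      rw [ih (by omega) (Function.update n (σ jj) ([], (c, b)))
        (Function.update m (σ jj) (c, b)) ?_ c]
      · refine if_congr ?_ rfl rfl
        constructor
        · rintro ⟨h1, h2, h3⟩
          have h4 := h1 (σ jj) (by simp [hjj])
          rw [Function.update_self] at h4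
          have h5 : (c : ℕ) = (τ.symm (σ jj) : ℕ) := by
            rw [Prod.mk.injEq] at h4
            rw [h4.1]; simp
          have h6 : (b : ℕ) = (τ.symm (σ jj) : ℕ) + 1 := by
            rw [Prod.mk.injEq] at h4
            rw [h4.2]; simp
          have h7 : τ.symm (σ jj) = jj := by
            apply Fin.ext
            rw [← h5, h2]
          refine ⟨h2, ?_, ?_, ?_⟩
          · intro i hi
            have hne : i ≠ σ jj := by
              rintro rfl
              simp [hjj] at hi
            have := h1 i (by omega)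
            rwa [Function.update_of_ne hne] at this
          · rw [h6, h7]
          · intro k hk
            by_cases hkj : (k : ℕ) = j
            · have : k = jj := Fin.ext hkj
              rw [this, h7]
            · exact h3 k (by omega)
        · rintro ⟨h2, h1, h6, h3⟩
          have h7 : τ.symm (σ jj) = jj := h3 jj (by simp [hjj])
          refine ⟨?_, h2, fun k hk => h3 k (by omega)⟩
          intro i hi
          by_cases hne : i = σ jj
          · subst hne
            rw [Function.update_self, h7]
            refine Prod.ext (Fin.ext ?_) (Fin.ext ?_)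
            · simp [hjj, h2]
            · simp [hjj, h6]
          · rw [Function.update_of_ne hne]
            apply h1 i
            have : (σ.symm i : ℕ) ≠ j := by
              intro h
              apply hne
              have : σ.symm i = jj := Fin.ext h
              rw [← this]; simp
            omega
      · intro i hi
        by_cases hne : i = σ jj
        · subst hne
          rw [Function.update_self, Function.update_self]
        · rw [Function.update_of_ne hne, Function.update_of_ne hne]
          apply hn i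
          have : (σ.symm i : ℕ) ≠ j := by
            intro h
            apply hne
            have : σ.symm i = jj := Fin.ext h
            rw [← this]; simp
          omega
    rw [Finset.sum_congr rfl fun c _ => key c]
    by_cases hP : ((∀ i, j + 1 ≤ (σ.symm i : ℕ) →
          m i = ((τ.symm i).castSucc, (τ.symm i).succ)) ∧
          (b : ℕ) = j + 1 ∧ ∀ k : Fin d, (k : ℕ) < j + 1 → τ.symm (σ k) = k)
    · rw [if_pos hP]
      rw [Finset.sum_eq_single (⟨j, by omega⟩ : Fin (d + 1))]
      · rw [if_pos ⟨rfl, hP⟩]
      · intro c _ hc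
        rw [if_neg]
        rintro ⟨h, -⟩
        exact hc (Fin.ext h)
      · intro h; exact absurd (Finset.mem_univ _) h
    · rw [if_neg hP]
      apply Finset.sum_eq_zero
      intro c _
      rw [if_neg]
      rintro ⟨-, h⟩
      exact hP h

theorem stmtEval : StmtEval := by
  intro d σ τ
  have h := cf_hd σ τ ([], (0, 0)) d le_rfl (fun _ => ([], (0, 0))) (fun _ => (0, 0))
    (fun i _ => rfl) (Fin.last d)
  rw [List.take_of_length_le (by simp)] at h
  have h1 : thval (actM (N := d + 1)) hM ([], (0, 0)) σ (Finsupp.single ([], Fin.last d) 1)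
      ((List.ofFn fun i : Fin d => ((τ.symm i).castSucc, (τ.symm i).succ)), 0) =
      cf ([], (0, 0)) ((List.ofFn fun i : Fin d => ((τ.symm i).castSucc, (τ.symm i).succ)), 0)
      ((((List.ofFn fun k : Fin d => hd (hM (N := d + 1)) (σ k))).prod)
        (Finsupp.single (fun _ => ([], (0, 0))) (Finsupp.single ([], Fin.last d) 1))) := by
    unfold thval cf
    rfl
  rw [h1, h]
  refine if_congr ?_ rfl rfl
  constructor
  · rintro ⟨-, -, h3⟩
    apply Equiv.ext
    intro k
    have := h3 k k.2
    rw [Equiv.symm_apply_eq] at this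
    exact this
  · rintro rfl
    refine ⟨fun i hi => absurd hi (by have := (σ.symm i).2; omega), by simp, fun k _ => by simp⟩

end Pool.Agent.Helper98.AD
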